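import Pool.Agent.Q2N.Stmts

/-!
# Windows of the coefficients of a fraction of Laurent polynomials (`BASEW`)
-/

set_option autoImplicit false

namespace Pool.Agent.Q2N.H94

open Pool.Agent.UW

theorem ng_anti {m n : ℕ} (h : m ≤ n) : ng n ≤ ng m := by
  unfold ng
  rw [WithTop.coe_le_coe]
  lia

theorem ng_add (m n : ℕ) : ng (m + n) = ng m + ng n := by
  unfold ng
  rw [← WithTop.coe_add]
  congr 1
  push_cast
  ring

theorem ng_zero : ng 0 = 0 := by
  unfold ng
  simp

section Calc

variable {F K : Type} [Field F] [Field K] [Algebra F K] (S : Dat F K)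

theorem v_zero_ge (p : S.X) (a : WithTop ℤ) : a ≤ S.v p 0 := by
  rw [AddValuation.map_zero]
  exact le_top

theorem v_mul_ge (p : S.X) {m n : ℕ} {f g : K} (hf : ng m ≤ S.v p f) (hg : ng n ≤ S.v p g) :
    ng (m + n) ≤ S.v p (f * g) := by
  rw [AddValuation.map_mul, ng_add]
  exact add_le_add hf hg

theorem v_add_ge (p : S.X) {a : WithTop ℤ} {f g : K} (hf : a ≤ S.v p f) (hg : a ≤ S.v p g) :
    a ≤ S.v p (f + g) :=
  AddValuation.map_le_add _ hf hg

theorem v_sub_ge (p : S.X) {a : WithTop ℤ} {f g : K} (hf : a ≤ S.v p f) (hg : a ≤ S.v p g) :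
    a ≤ S.v p (f - g) :=
  AddValuation.map_le_sub _ hf hg

theorem v_sum_ge (p : S.X) {a : WithTop ℤ} {ι : Type*} (s : Finset ι) (f : ι → K)
    (h : ∀ i ∈ s, a ≤ S.v p (f i)) : a ≤ S.v p (∑ i ∈ s, f i) :=
  AddValuation.map_le_sum _ h

/-- pole orders of one function -/
theorem exists_po (f : K) : ∃ m : S.X → ℕ, {p | m p ≠ 0}.Finite ∧ ∀ p, ng (m p) ≤ S.v p f := by
  by_cases hf : f = 0
  · subst hf
    refine ⟨fun _ => 0, ?_, fun p => v_zero_ge S p _⟩
    simp
  · have h1 : ∀ p, ∃ n : ℤ, (n : WithTop ℤ) = S.v p f := by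
      intro p
      apply WithTop.ne_top_iff_exists.1
      rw [Ne, AddValuation.top_iff]
      exact hf
    choose n hn using h1
    refine ⟨fun p => (-(n p)).toNat, ?_, ?_⟩
    · refine (S.fin f hf).subset ?_
      intro p hp
      show S.v p f ≠ 0
      rw [← hn]
      intro h
      have h2 : n p = 0 := by exact_mod_cast h
      apply hp
      show (-(n p)).toNat = 0
      rw [h2]
      rfl
    · intro p
      rw [← hn]
      unfold ng
      rw [WithTop.coe_le_coe]
      lia

/-- pole orders of finitely many functions -/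
theorem exists_po_finset {ι : Type*} (s : Finset ι) (f : ι → K) :
    ∃ m : S.X → ℕ, {p | m p ≠ 0}.Finite ∧ ∀ i ∈ s, ∀ p, ng (m p) ≤ S.v p (f i) := by
  classical
  induction s using Finset.induction_on with
  | empty =>
    refine ⟨fun _ => 0, ?_, ?_⟩
    · simp
    · intro i hi
      exact absurd hi (Finset.notMem_empty i)
  | insert a s ha ih =>
    obtain ⟨m, hm, h1⟩ := ih
    obtain ⟨m', hm', h2⟩ := exists_po S (f a)
    refine ⟨fun p => m p + m' p, ?_, ?_⟩
    · refine (hm.union hm').subset ?_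
      intro p hp
      by_contra h
      rw [Set.mem_union, not_or] at h
      obtain ⟨h3, h4⟩ := h
      have h3' : m p = 0 := by
        by_contra h
        exact h3 h
      have h4' : m' p = 0 := by
        by_contra h
        exact h4 h
      apply hp
      show m p + m' p = 0
      rw [h3', h4']
    · intro i hi p
      rcases Finset.mem_insert.1 hi with rfl | hi
      · exact (ng_anti (Nat.le_add_left _ _)).trans (h2 p)
      · exact (ng_anti (Nat.le_add_right _ _)).trans (h1 i hi p)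

end Calc

theorem basew : Pool.Agent.Q2N.BasewStmt := by
  intro F K _ _ _ S u P Q hP hPu hPf hQf
  obtain ⟨a, haP, ha0⟩ := SkewLaurent.exists_order hP
  obtain ⟨o, ho⟩ := u.bdd
  obtain ⟨nP, hnP⟩ := hPf
  obtain ⟨nQ, hnQ⟩ := hQf
  obtain ⟨lQ, hlQ⟩ := Q.bdd
  obtain ⟨m1, hm1, hP1⟩ := exists_po_finset S (Finset.Icc a nP)
    (fun i => (P.coeff a)⁻¹ * P.coeff i)
  obtain ⟨m2, hm2, hQ2⟩ := exists_po_finset S (Finset.Icc lQ nQ)
    (fun i => (P.coeff a)⁻¹ * Q.coeff i)
  have hPall : ∀ (i : ℤ) (p : S.X), ng (m1 p) ≤ S.v p ((P.coeff a)⁻¹ * P.coeff i) := by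
    intro i p
    by_cases hi : i ∈ Finset.Icc a nP
    · exact hP1 i hi p
    · have h0 : P.coeff i = 0 := by
        rw [Finset.mem_Icc, not_and_or] at hi
        rcases hi with hi | hi
        · exact haP i (by lia)
        · exact hnP i (by lia)
      rw [h0, mul_zero]
      exact v_zero_ge S p _
  have hQall : ∀ (i : ℤ) (p : S.X), ng (m2 p) ≤ S.v p ((P.coeff a)⁻¹ * Q.coeff i) := by
    intro i p
    by_cases hi : i ∈ Finset.Icc lQ nQ
    · exact hQ2 i hi p
    · have h0 : Q.coeff i = 0 := by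
        rw [Finset.mem_Icc, not_and_or] at hi
        rcases hi with hi | hi
        · exact hlQ i (by lia)
        · exact hnQ i (by lia)
      rw [h0, mul_zero]
      exact v_zero_ge S p _
  let m : S.X → ℕ := fun p => m1 ((S.τ ^ (-a)) p) + m2 ((S.τ ^ (-a)) p)
  have hmfin : {p | m p ≠ 0}.Finite := by
    have h1 : {p | m p ≠ 0} ⊆ (S.τ ^ (-a)) ⁻¹' ({p | m1 p ≠ 0} ∪ {p | m2 p ≠ 0}) := by
      intro p hp
      by_contra h
      rw [Set.mem_preimage, Set.mem_union, not_or] at h
      obtain ⟨h3, h4⟩ := h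
      have h3' : m1 ((S.τ ^ (-a)) p) = 0 := by
        by_contra h
        exact h3 h
      have h4' : m2 ((S.τ ^ (-a)) p) = 0 := by
        by_contra h
        exact h4 h
      apply hp
      show m1 ((S.τ ^ (-a)) p) + m2 ((S.τ ^ (-a)) p) = 0
      rw [h3', h4']
    refine Set.Finite.subset ?_ h1
    exact (hm1.union hm2).preimage ((S.τ ^ (-a)).injective.injOn)
  -- the recursion
  have key : ∀ (n : ℕ) (p : S.X),
      ng (∑ s ∈ Finset.range (n + 1), m ((S.τ ^ (s : ℤ)) p)) ≤ S.v p (u.coeff (o + n)) := by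
    intro n
    induction n using Nat.strong_induction_on with
    | _ n ih =>
      intro p
      set q : S.X := (S.τ ^ (-a)) p with hq
      have hqp : (S.τ ^ a) q = p := by
        rw [hq, ← Equiv.Perm.mul_apply, ← zpow_add, add_neg_cancel, zpow_zero]
        rfl
      have hv : S.v p (u.coeff (o + n)) = S.v q ((S.σ ^ a) (u.coeff (o + n))) := by
        rw [v_σ_zpow, hqp]
      have hsum := SkewLaurent.coeff_mul_eq P u haP ho (a + o + n)
      rw [hPu] at hsum
      have hmem : a ∈ Finset.Icc a (a + o + n - o) := by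
        rw [Finset.mem_Icc]
        constructor <;> lia
      rw [← Finset.add_sum_erase _ _ hmem] at hsum
      have h1 : a + o + (n : ℤ) - a = o + n := by ring
      rw [h1] at hsum
      have h2 : (S.σ ^ a) (u.coeff (o + n)) = (P.coeff a)⁻¹ * Q.coeff (a + o + n) -
          ∑ i ∈ (Finset.Icc a (a + o + n - o)).erase a,
            (P.coeff a)⁻¹ * P.coeff i * (S.σ ^ i) (u.coeff (a + o + n - i)) := by
        have h3 : ∑ i ∈ (Finset.Icc a (a + o + n - o)).erase a,
            (P.coeff a)⁻¹ * P.coeff i * (S.σ ^ i) (u.coeff (a + o + n - i)) =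
            (P.coeff a)⁻¹ * ∑ i ∈ (Finset.Icc a (a + o + n - o)).erase a,
              P.coeff i * (S.σ ^ i) (u.coeff (a + o + n - i)) := by
          rw [Finset.mul_sum]
          exact Finset.sum_congr rfl fun i _ => mul_assoc _ _ _
        rw [h3, hsum, mul_add, inv_mul_cancel_left₀ ha0, add_sub_cancel_right]
      rw [hv, h2]
      have hm1q : m1 q ≤ m p := Nat.le_add_right _ _
      have hm2q : m2 q ≤ m p := Nat.le_add_left _ _
      have hfirst : m p ≤ ∑ s ∈ Finset.range (n + 1), m ((S.τ ^ (s : ℤ)) p) := by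
        have h3 := Finset.single_le_sum (f := fun s : ℕ => m ((S.τ ^ (s : ℤ)) p))
          (s := Finset.range (n + 1)) (fun i _ => Nat.zero_le _)
          (Finset.mem_range.2 (Nat.succ_pos n))
        simpa using h3
      apply v_sub_ge
      · exact (ng_anti (hm2q.trans hfirst)).trans (hQall _ _)
      · apply v_sum_ge
        intro i hi
        rw [Finset.mem_erase, Finset.mem_Icc] at hi
        obtain ⟨hia, hi1, hi2⟩ := hi
        obtain ⟨r, hr⟩ : ∃ r : ℕ, i = a + (r + 1 : ℕ) := ⟨(i - a - 1).toNat, by lia⟩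
        have hrn : r + 1 ≤ n := by lia
        obtain ⟨k, hk⟩ : ∃ k : ℕ, n = k + (r + 1) := ⟨n - (r + 1), by lia⟩
        have h4 : a + o + (n : ℤ) - i = o + (k : ℕ) := by
          rw [hr, hk]
          push_cast
          ring
        have h5 : S.v q ((S.σ ^ i) (u.coeff (a + o + n - i))) =
            S.v ((S.τ ^ ((r + 1 : ℕ) : ℤ)) p) (u.coeff (o + (k : ℕ))) := by
          rw [v_σ_zpow, h4, hr, add_comm a, zpow_add, Equiv.Perm.mul_apply, hqp]
        have h6 := ih k (by lia) ((S.τ ^ ((r + 1 : ℕ) : ℤ)) p)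
        rw [← h5] at h6
        have h7 := v_mul_ge S q (hPall i q) h6
        refine (ng_anti ?_).trans h7
        have h8 : m1 q ≤ ∑ s ∈ Finset.range (r + 1), m ((S.τ ^ (s : ℤ)) p) := by
          have h3 := Finset.single_le_sum (f := fun s : ℕ => m ((S.τ ^ (s : ℤ)) p))
            (s := Finset.range (r + 1)) (fun i _ => Nat.zero_le _)
            (Finset.mem_range.2 (Nat.succ_pos r))
          refine hm1q.trans ?_
          simpa using h3
        have h9 : ∑ s ∈ Finset.range (k + 1), m ((S.τ ^ (s : ℤ)) ((S.τ ^ ((r + 1 : ℕ) : ℤ)) p)) =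
            ∑ s ∈ Finset.range (k + 1), m ((S.τ ^ ((r + 1 + s : ℕ) : ℤ)) p) := by
          refine Finset.sum_congr rfl fun s _ => ?_
          rw [← Equiv.Perm.mul_apply, ← zpow_add]
          congr 3
          push_cast
          ring
        have h10 := Finset.sum_range_add (fun s : ℕ => m ((S.τ ^ (s : ℤ)) p)) (r + 1) (k + 1)
        rw [h9, hk, show k + (r + 1) + 1 = (r + 1) + (k + 1) by ring, h10]
        exact Nat.add_le_add_right h8 _
  refine ⟨m, o.natAbs, hmfin, ?_⟩
  intro j p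
  rcases lt_or_ge j o with hj | hj
  · rw [ho j hj]
    exact v_zero_ge S p _
  · obtain ⟨n, hn⟩ : ∃ n : ℕ, j = o + n := ⟨(j - o).toNat, by lia⟩
    have h1 : ((-(∑ s ∈ Finset.Icc (-((o.natAbs : ℕ) : ℤ)) (j + (o.natAbs : ℕ)),
        (m ((S.τ ^ s) p) : ℤ)) : ℤ) : WithTop ℤ) =
        ng (∑ s ∈ Finset.Icc (-((o.natAbs : ℕ) : ℤ)) (j + (o.natAbs : ℕ)), m ((S.τ ^ s) p)) := by
      unfold ng
      rw [Nat.cast_sum]
    rw [h1]
    refine le_trans (ng_anti ?_) (by rw [hn]; exact key n p)
    have h2 : ∑ s ∈ Finset.range (n + 1), m ((S.τ ^ (s : ℤ)) p) =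
        ∑ t ∈ (Finset.range (n + 1)).map Nat.castEmbedding, m ((S.τ ^ (t : ℤ)) p) := by
      rw [Finset.sum_map]
      rfl
    rw [h2]
    apply Finset.sum_le_sum_of_subset
    intro t ht
    rw [Finset.mem_map] at ht
    obtain ⟨s, hs, rfl⟩ := ht
    rw [Finset.mem_range] at hs
    rw [Finset.mem_Icc]
    show -((o.natAbs : ℕ) : ℤ) ≤ (s : ℤ) ∧ (s : ℤ) ≤ j + (o.natAbs : ℕ)
    constructor <;> lia

end Pool.Agent.Q2N.H94
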