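import Pool.Agent.Helper94_Q2N.Basew

/-!
# Pull back of pole bounds along an orbit (`PULL`)
-/

set_option autoImplicit false

namespace Pool.Agent.Q2N.H94

open Pool.Agent.UW

theorem pull : Pool.Agent.Q2N.PullStmt := by
  intro F K _ _ _ S μ hμ ρ G
  classical
  obtain ⟨mG, hmG, hG⟩ := exists_po_finset S (Finset.univ : Finset (Fin ρ × Fin ρ))
    (fun q => G q.1 q.2)
  -- the orbit of `p` meets the support finitely often
  have horb : ∀ p : S.X, {i : ℕ | mG ((S.τ ^ i) p) ≠ 0}.Finite := by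
    intro p
    have hinj : Function.Injective (fun i : ℕ => (S.τ ^ i) p) := by
      intro i j hij
      have h1 : (S.τ ^ ((i : ℤ) - j)) p = p := by
        have h2 : (S.τ ^ (i : ℤ)) p = (S.τ ^ (j : ℤ)) p := by
          rw [zpow_natCast, zpow_natCast]
          exact hij
        rw [sub_eq_neg_add, zpow_add, Equiv.Perm.mul_apply, h2, ← Equiv.Perm.mul_apply, ← zpow_add,
          neg_add_cancel, zpow_zero]
        rfl
      have h3 := S.free p _ h1
      lia
    exact hmG.preimage hinj.injOn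
  obtain ⟨Tμ, cμ, hTμ, hμ2⟩ := hμ
  refine ⟨fun p => μ p + ∑ i ∈ (horb p).toFinset, mG ((S.τ ^ i) p), ?_, ?_⟩
  · refine ⟨Tμ ∪ {p | mG p ≠ 0}, max cμ 0, hTμ.union hmG, ?_⟩
    intro p hp
    by_cases h0 : μ p = 0
    · have h1 : ∑ i ∈ (horb p).toFinset, mG ((S.τ ^ i) p) ≠ 0 := by
        intro h
        apply hp
        show μ p + ∑ i ∈ (horb p).toFinset, mG ((S.τ ^ i) p) = 0
        rw [h0, h]
      obtain ⟨i, _, hi⟩ := Finset.exists_ne_zero_of_sum_ne_zero h1
      refine ⟨(i : ℤ), by lia, Or.inr ?_⟩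
      rw [zpow_natCast]
      exact hi
    · obtain ⟨s, hs, hs2⟩ := hμ2 p h0
      exact ⟨s, by lia, Or.inl hs2⟩
  · intro z hz hlim i p
    obtain ⟨s0, hs0⟩ := hlim p
    have key : ∀ k : ℕ, k ≤ s0 → ∀ i, ng (μ p + ∑ l ∈ Finset.Ico (s0 - k) s0, mG ((S.τ ^ l) p)) ≤
        S.v ((S.τ ^ (s0 - k)) p) (z (s0 - k) i) := by
      intro k
      induction k with
      | zero =>
        intro _ i
        rw [Nat.sub_zero, Finset.Ico_self, Finset.sum_empty, add_zero]
        exact hs0 s0 le_rfl i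
      | succ k ih =>
        intro hk i
        have h1 := ih (by lia)
        obtain ⟨r, hr⟩ : ∃ r : ℕ, s0 - k = r + 1 := ⟨s0 - k - 1, by lia⟩
        have hr2 : s0 - (k + 1) = r := by lia
        rw [hr] at h1
        rw [hr2, hz r]
        have h2 : act S.σ G (z (r + 1)) i = ∑ l, S.σ (z (r + 1) l) * G l i := by
          rfl
        rw [h2]
        apply v_sum_ge
        intro l _
        have h3 : S.v ((S.τ ^ r) p) (S.σ (z (r + 1) l)) = S.v ((S.τ ^ (r + 1)) p) (z (r + 1) l) := by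
          rw [S.v_σ, pow_succ', Equiv.Perm.mul_apply]
        have h4 := h1 l
        rw [← h3] at h4
        have h5 := v_mul_ge S _ h4 (hG (l, i) (Finset.mem_univ _) ((S.τ ^ r) p))
        refine (ng_anti (le_of_eq ?_)).trans h5
        rw [Finset.sum_eq_sum_Ico_succ_bot (by lia : r < s0)]
        ring
    have h1 := key s0 le_rfl i
    rw [Nat.sub_self, pow_zero] at h1
    refine (ng_anti ?_).trans h1
    apply Nat.add_le_add_left
    rw [← Finset.range_eq_Ico]
    have h2 : ∑ l ∈ Finset.range s0, mG ((S.τ ^ l) p) =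
        ∑ l ∈ (Finset.range s0).filter (fun l => mG ((S.τ ^ l) p) ≠ 0), mG ((S.τ ^ l) p) := by
      rw [Finset.sum_filter_ne_zero]
    rw [h2]
    apply Finset.sum_le_sum_of_subset
    intro l hl
    rw [Finset.mem_filter] at hl
    rw [Set.Finite.mem_toFinset]
    exact hl.2

end Pool.Agent.Q2N.H94
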