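import Pool.Agent.Helper94_Q2N.Basew

/-!
# Windows of the powers of a finite dimensional subspace (`WINM`)
-/

set_option autoImplicit false

namespace Pool.Agent.Q2N.H94

open Pool.Agent.UW

section W

variable {F K : Type} [Field F] [Field K] [Algebra F K] (S : Dat F K)

/-- exponents at least `-e`, and the coefficient of `t^j` is regular at `p` unless some `τ^t p`,
`-c ≤ t ≤ max j 0 + c`, is in `T` -/
def W (T : Set S.X) (e c : ℕ) (u : SkewLaurent K S.σ) : Prop :=
  (∀ i : ℤ, i < -(e : ℤ) → u.coeff i = 0) ∧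
    ∀ (j : ℤ) (p : S.X), (∀ t : ℤ, -(c : ℤ) ≤ t → t ≤ max j 0 + c → (S.τ ^ t) p ∉ T) →
      0 ≤ S.v p (u.coeff j)

variable {S}

theorem W.zero (T : Set S.X) (e c : ℕ) : W S T e c 0 :=
  ⟨fun _ _ => rfl, fun _ p _ => v_zero_ge S p _⟩

theorem W.add {T : Set S.X} {e c : ℕ} {u w : SkewLaurent K S.σ} (hu : W S T e c u)
    (hw : W S T e c w) : W S T e c (u + w) := by
  refine ⟨fun i hi => ?_, fun j p h => ?_⟩
  · rw [SkewLaurent.coeff_add, hu.1 i hi, hw.1 i hi, add_zero]
  · rw [SkewLaurent.coeff_add]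
    exact v_add_ge S p (hu.2 j p h) (hw.2 j p h)

theorem v_const_ge (p : S.X) (c : F) : 0 ≤ S.v p (algebraMap F K c) := by
  by_cases hc : c = 0
  · rw [hc, map_zero]
    exact v_zero_ge S p _
  · rw [S.v_const p c hc]

theorem W.const (T : Set S.X) (a : F) : W S T 0 0 (sgl S.σ (algebraMap F K a) 0) := by
  refine ⟨fun i hi => ?_, fun j p _ => ?_⟩
  · rw [sgl_coeff, if_neg (by simpa using hi.ne)]
  · rw [sgl_coeff]
    split_ifs
    · exact v_const_ge p a
    · exact v_zero_ge S p _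

theorem W.mul {T : Set S.X} {e₁ c₁ e₂ c₂ e c : ℕ} {u w : SkewLaurent K S.σ} (hu : W S T e₁ c₁ u)
    (hw : W S T e₂ c₂ w) (he : e₁ + e₂ ≤ e) (h1 : c₁ + e₂ ≤ c) (h2 : e₁ + c₂ ≤ c)
    (h3 : e₂ + c₂ ≤ c) : W S T e c (u * w) := by
  refine ⟨fun i hi => ?_, fun j p h => ?_⟩
  · rw [SkewLaurent.coeff_mul_eq u w hu.1 hw.1, Finset.Icc_eq_empty (by lia), Finset.sum_empty]
  · rw [SkewLaurent.coeff_mul_eq u w hu.1 hw.1]
    apply v_sum_ge
    intro i hi
    rw [Finset.mem_Icc] at hi
    rw [AddValuation.map_mul]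
    apply add_nonneg
    · apply hu.2
      intro t ht1 ht2
      exact h t (by lia) (by lia)
    · rw [v_σ_zpow]
      apply hw.2
      intro t ht1 ht2
      rw [← Equiv.Perm.mul_apply, ← zpow_add]
      exact h (t + i) (by lia) (by lia)

theorem W.smul {D : Type} [DivisionRing D] [Algebra F D] (E : EndOf S D) {T : Set S.X} {e c : ℕ}
    {x : D} (hx : W S T e c (E.χ x)) (a : F) : W S T e c (E.χ (a • x)) := by
  rw [Algebra.smul_def, map_mul, E.const]
  refine ⟨fun i hi => ?_, fun j p h => ?_⟩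
  · rw [sgl_mul_coeff, sub_zero, hx.1 i hi, map_zero, mul_zero]
  · rw [sgl_mul_coeff, sub_zero, zpow_zero, AddValuation.map_mul]
    apply add_nonneg
    · exact v_const_ge p a
    · exact hx.2 j p h

theorem W.of_win {m : S.X → ℕ} {c : ℕ} {u : SkewLaurent K S.σ} (h : Win S m c u) {T : Set S.X}
    (hT : {p | m p ≠ 0} ⊆ T) {e c' : ℕ} (hc : c ≤ c') (he : ∀ i : ℤ, i < -(e : ℤ) → u.coeff i = 0) :
    W S T e c' u := by
  refine ⟨he, fun j p hp => ?_⟩
  refine le_trans (le_of_eq ?_) (h j p)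
  rw [Finset.sum_eq_zero]
  · rfl
  · intro s hs
    rw [Finset.mem_Icc] at hs
    have h1 : (S.τ ^ s) p ∉ {p | m p ≠ 0} := fun h2 =>
      hp s (by lia) (by lia) (hT h2)
    have h2 : m ((S.τ ^ s) p) = 0 := by
      by_contra h
      exact h1 h
    rw [h2]
    rfl

end W

theorem winm : Pool.Agent.Q2N.WinmStmt := by
  intro hB F K _ _ _ S D _ _ E V hV
  classical
  have hw : ∀ d : D, ∃ (m : S.X → ℕ) (c : ℕ), {p | m p ≠ 0}.Finite ∧ Win S m c (E.χ d) := by
    intro d
    obtain ⟨P, Q, hP, hPQ, h1, h2⟩ := E.rat d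
    exact hB F K S (E.χ d) P Q hP hPQ h1 h2
  choose m c hfin hwin using hw
  have he : ∀ d : D, ∃ e : ℕ, ∀ i : ℤ, i < -(e : ℤ) → (E.χ d).coeff i = 0 := by
    intro d
    obtain ⟨n, hn⟩ := (E.χ d).bdd
    exact ⟨n.natAbs, fun i hi => hn i (by lia)⟩
  choose e he using he
  obtain ⟨s, hs⟩ := (Module.Finite.iff_fg.1 hV)
  set T : Set S.X := ⋃ b ∈ s, {p | m b p ≠ 0} with hT
  have hTfin : T.Finite := by
    rw [hT]
    exact s.finite_toSet.biUnion fun b _ => hfin b
  set c0 : ℕ := ∑ b ∈ s, c b with hc0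
  set e0 : ℕ := ∑ b ∈ s, e b with he0
  have hV1 : ∀ x ∈ V, W S T e0 c0 (E.χ x) := by
    intro x hx
    rw [← hs] at hx
    induction hx using Submodule.span_induction with
    | mem b hb =>
      have hb' : b ∈ s := hb
      apply W.of_win (hwin b)
      · intro p hp
        rw [hT, Set.mem_iUnion₂]
        exact ⟨b, hb', hp⟩
      · exact Finset.single_le_sum (f := c) (fun _ _ => Nat.zero_le _) hb'
      · intro i hi
        have h1 : e b ≤ e0 := Finset.single_le_sum (f := e) (fun _ _ => Nat.zero_le _) hb'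
        exact he b i (by lia)
    | zero =>
      rw [map_zero]
      exact W.zero T e0 c0
    | add x y _ _ hx hy =>
      rw [map_add]
      exact hx.add hy
    | smul a x _ hx => exact W.smul E hx a
  have hVz : ∀ z : ℕ, ∀ x ∈ V ^ z, W S T (e0 * z) ((e0 + c0) * z) (E.χ x) := by
    intro z
    induction z with
    | zero =>
      intro x hx
      rw [pow_zero, Submodule.mem_one] at hx
      obtain ⟨a, rfl⟩ := hx
      rw [E.const, mul_zero, mul_zero]
      exact W.const T a
    | succ z ih =>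
      intro x hx
      rw [pow_succ] at hx
      induction hx using Submodule.mul_induction_on' with
      | mem_mul_mem a ha b hb =>
        rw [map_mul]
        refine (ih a ha).mul (hV1 b hb) ?_ ?_ ?_ ?_
        · exact le_of_eq (by ring)
        · have h1 : (e0 + c0) * (z + 1) = (e0 + c0) * z + e0 + c0 := by ring
          lia
        · have h1 : (e0 + c0) * (z + 1) = e0 * z + c0 + (c0 * z + e0) := by ring
          lia
        · have h1 : (e0 + c0) * (z + 1) = e0 + c0 + (e0 + c0) * z := by ring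
          lia
      | add a ha b hb h1 h2 =>
        rw [map_add]
        exact h1.add h2
  refine ⟨T, hTfin, e0 + c0, ?_⟩
  intro z _ x hx n p hp
  by_contra hcon
  push Not at hcon
  apply absurd hp
  rw [not_lt]
  apply (hVz z x hx).2
  intro t ht1 ht2
  apply hcon
  rw [abs_le]
  constructor <;> lia

end Pool.Agent.Q2N.H94
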